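import Mathlib
open scoped ENNReal Topology
set_option autoImplicit false

namespace Pool.Agent.Lib.MP_eebf92_an

/-- second order symmetric difference at a point where the derivative is differentiable -/
lemma second_diff {E : Type} [NormedAddCommGroup E] [NormedSpace ℝ E] {φ : E → ℝ}
    (hφ : Differentiable ℝ φ) {x : E} {T : E →L[ℝ] E →L[ℝ] ℝ}
    (hT : HasFDerivAt (fderiv ℝ φ) T x) {ε : ℝ} (hε : 0 < ε) :
    ∃ δ > 0, ∀ h : E, ‖h‖ < δ →
      |φ (x + h) + φ (x - h) - 2 * φ x - T h h| ≤ ε * ‖h‖ ^ 2 := by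
  have h1 := (hasFDerivAt_iff_isLittleO_nhds_zero.1 hT).def (half_pos hε)
  rw [Metric.eventually_nhds_iff] at h1
  obtain ⟨δ, hδ, h2⟩ := h1
  refine ⟨δ, hδ, fun h hh => ?_⟩
  have h3 : ∀ z : E, ‖z‖ < δ → ‖fderiv ℝ φ (x + z) - fderiv ℝ φ x - T z‖ ≤ ε / 2 * ‖z‖ := by
    intro z hz
    exact h2 (by simpa using hz)
  set γ : ℝ → ℝ := fun s => φ (x + s • h) + φ (x - s • h) - 2 * φ x - s ^ 2 * T h h with hγ
  have hder : ∀ s : ℝ, HasDerivAt γ
      (fderiv ℝ φ (x + s • h) h - fderiv ℝ φ (x - s • h) h - 2 * s * T h h) s := by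
    intro s
    have a1 : HasDerivAt (fun s : ℝ => x + s • h) h s := by
      simpa using ((hasDerivAt_id s).smul_const h).const_add x
    have a2 : HasDerivAt (fun s : ℝ => x - s • h) (-h) s := by
      simpa using ((hasDerivAt_id s).smul_const h).const_sub x
    have b1 := (hφ (x + s • h)).hasFDerivAt.comp_hasDerivAt s a1
    have b2 := (hφ (x - s • h)).hasFDerivAt.comp_hasDerivAt s a2
    have b3 : HasDerivAt (fun s : ℝ => s ^ 2 * T h h) (2 * s * T h h) s := by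
      simpa using (hasDerivAt_pow 2 s).mul_const (T h h)
    have := ((b1.add b2).sub_const (2 * φ x)).sub b3
    refine this.congr_deriv ?_
    simp
    ring
  have hbound : ∀ s ∈ Set.Ico (0:ℝ) 1,
      ‖fderiv ℝ φ (x + s • h) h - fderiv ℝ φ (x - s • h) h - 2 * s * T h h‖ ≤ ε * ‖h‖ ^ 2 := by
    intro s hs
    have hs0 : 0 ≤ s := hs.1
    have hs1 : s < 1 := hs.2
    have n1 : ‖s • h‖ ≤ ‖h‖ := by
      rw [norm_smul, Real.norm_eq_abs, abs_of_nonneg hs0]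
      nlinarith [norm_nonneg h]
    have c1 := h3 (s • h) (lt_of_le_of_lt n1 hh)
    have c2 := h3 (-(s • h)) (by rw [norm_neg]; exact lt_of_le_of_lt n1 hh)
    rw [norm_neg, ← sub_eq_add_neg] at c2
    have d1 : ‖(fderiv ℝ φ (x + s • h) - fderiv ℝ φ x - T (s • h)) h‖ ≤ (ε / 2 * ‖h‖) * ‖h‖ :=
      (ContinuousLinearMap.le_opNorm _ _).trans
        (mul_le_mul_of_nonneg_right (c1.trans (by gcongr)) (norm_nonneg _))
    have d2 : ‖(fderiv ℝ φ (x - s • h) - fderiv ℝ φ x - T (-(s • h))) h‖ ≤ (ε / 2 * ‖h‖) * ‖h‖ :=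
      (ContinuousLinearMap.le_opNorm _ _).trans
        (mul_le_mul_of_nonneg_right (c2.trans (by gcongr)) (norm_nonneg _))
    have e : fderiv ℝ φ (x + s • h) h - fderiv ℝ φ (x - s • h) h - 2 * s * T h h =
        (fderiv ℝ φ (x + s • h) - fderiv ℝ φ x - T (s • h)) h -
        (fderiv ℝ φ (x - s • h) - fderiv ℝ φ x - T (-(s • h))) h := by
      simp
      ring
    rw [e]
    calc _ ≤ _ := norm_sub_le _ _
      _ ≤ (ε / 2 * ‖h‖) * ‖h‖ + (ε / 2 * ‖h‖) * ‖h‖ := add_le_add d1 d2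
      _ = _ := by ring
  have key := norm_image_sub_le_of_norm_deriv_le_segment_01' (f := γ)
    (fun s _ => (hder s).hasDerivWithinAt) hbound
  have g0 : γ 0 = 0 := by simp [hγ]; ring
  have g1 : γ 1 = φ (x + h) + φ (x - h) - 2 * φ x - T h h := by simp [hγ]
  rw [g0, g1, sub_zero, Real.norm_eq_abs] at key
  exact key

/-- if `φ` is invariant under translations by `b - c`, the second derivative agrees on `b`, `c` -/
lemma second_deriv_eq {E : Type} [NormedAddCommGroup E] [NormedSpace ℝ E] {φ : E → ℝ}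
    (hφ : Differentiable ℝ φ) {x : E} {T : E →L[ℝ] E →L[ℝ] ℝ}
    (hT : HasFDerivAt (fderiv ℝ φ) T x) {b c : E}
    (hinv : ∀ (s : ℝ) (z : E), φ (z + s • (b - c)) = φ z) : T b b = T c c := by
  by_contra hne
  set M : ℝ := ‖b‖ ^ 2 + ‖c‖ ^ 2 + 1 with hM
  have hMpos : 0 < M := by positivity
  set d : ℝ := |T b b - T c c| with hd
  have hdpos : 0 < d := abs_pos.2 (sub_ne_zero.2 hne)
  obtain ⟨δ, hδ, h1⟩ := second_diff hφ hT (ε := d / (2 * M)) (by positivity)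
  -- choose s small
  obtain ⟨s, hs0, hs1⟩ : ∃ s : ℝ, 0 < s ∧ s * (‖b‖ + ‖c‖ + 1) < δ := by
    refine ⟨δ / (2 * (‖b‖ + ‖c‖ + 1)), by positivity, ?_⟩
    have : 0 < ‖b‖ + ‖c‖ + 1 := by positivity
    rw [div_mul_eq_mul_div, div_lt_iff₀ (by positivity)]
    nlinarith
  have hb : ‖s • b‖ < δ := by
    rw [norm_smul, Real.norm_eq_abs, abs_of_pos hs0]
    nlinarith [norm_nonneg b, norm_nonneg c]
  have hc : ‖s • c‖ < δ := by
    rw [norm_smul, Real.norm_eq_abs, abs_of_pos hs0]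
    nlinarith [norm_nonneg b, norm_nonneg c]
  have k1 := h1 _ hb
  have k2 := h1 _ hc
  have e1 : φ (x + s • b) = φ (x + s • c) := by
    rw [← hinv s (x + s • c)]
    congr 1
    module
  have e2 : φ (x - s • b) = φ (x - s • c) := by
    rw [← hinv (-s) (x - s • c)]
    congr 1
    module
  rw [e1, e2] at k1
  have t1 : T (s • b) (s • b) = s ^ 2 * T b b := by simp; ring
  have t2 : T (s • c) (s • c) = s ^ 2 * T c c := by simp; ring
  rw [t1] at k1
  rw [t2] at k2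
  have nb : ‖s • b‖ ^ 2 = s ^ 2 * ‖b‖ ^ 2 := by
    rw [norm_smul, mul_pow, Real.norm_eq_abs, sq_abs]
  have nc : ‖s • c‖ ^ 2 = s ^ 2 * ‖c‖ ^ 2 := by
    rw [norm_smul, mul_pow, Real.norm_eq_abs, sq_abs]
  rw [nb] at k1
  rw [nc] at k2
  have hsum : |s ^ 2 * T b b - s ^ 2 * T c c| ≤ d / (2 * M) * (s ^ 2 * ‖b‖ ^ 2) + d / (2 * M) * (s ^ 2 * ‖c‖ ^ 2) := by
    rw [abs_le] at k1 k2 ⊢
    constructor <;> linarith [k1.1, k1.2, k2.1, k2.2]
  have hl : |s ^ 2 * T b b - s ^ 2 * T c c| = s ^ 2 * d := by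
    rw [← mul_sub, abs_mul, abs_of_pos (by positivity : (0:ℝ) < s ^ 2)]
  rw [hl] at hsum
  have : s ^ 2 * d ≤ s ^ 2 * (d / 2) := by
    refine hsum.trans ?_
    have : d / (2 * M) * (s ^ 2 * ‖b‖ ^ 2) + d / (2 * M) * (s ^ 2 * ‖c‖ ^ 2)
        = s ^ 2 * (d / 2) * ((‖b‖ ^ 2 + ‖c‖ ^ 2) / M) := by
      field_simp
    rw [this]
    have h2 : (‖b‖ ^ 2 + ‖c‖ ^ 2) / M ≤ 1 := by
      rw [div_le_one hMpos]; linarith
    have h3 : 0 ≤ s ^ 2 * (d / 2) := by positivity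
    nlinarith
  have hs2 : 0 < s ^ 2 := by positivity
  nlinarith

/-- a convex function that stays bounded above along a line through `x` is constant along it -/
lemma convex_const {E : Type} [NormedAddCommGroup E] [NormedSpace ℝ E] {φ : E → ℝ}
    (hφ : ConvexOn ℝ Set.univ φ) {y : E} (hb : ∀ x : E, ∃ M : ℝ, ∀ s : ℝ, φ (x + s • y) ≤ M) (x : E) :
    φ (x + y) = φ x := by
  have key : ∀ (z w : E), (∃ M : ℝ, ∀ s : ℝ, φ (z + s • w) ≤ M) → φ (z + w) ≤ φ z := by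
    rintro z w ⟨M, hM⟩
    by_contra hlt
    push Not at hlt
    have hn : ∀ n : ℕ, (n + 1 : ℝ) * (φ (z + w) - φ z) + φ z ≤ M := by
      intro n
      have hpos : (0:ℝ) < n + 1 := by positivity
      have q0 : (0:ℝ) ≤ 1 - 1 / ((n:ℝ) + 1) := by
        rw [sub_nonneg, div_le_one hpos]; linarith [Nat.cast_nonneg (α := ℝ) n]
      have q1 : (0:ℝ) ≤ 1 / ((n:ℝ) + 1) := by positivity
      have q2 : (1 - 1 / ((n:ℝ) + 1)) + 1 / ((n:ℝ) + 1) = 1 := by ring
      have h1 := hφ.2 (Set.mem_univ z) (Set.mem_univ (z + ((n:ℝ) + 1) • w)) q0 q1 q2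
      have e : (1 - 1 / ((n:ℝ) + 1)) • z + (1 / ((n:ℝ) + 1)) • (z + ((n:ℝ) + 1) • w) = z + w := by
        rw [smul_add, smul_smul, one_div_mul_cancel hpos.ne', one_smul, ← add_assoc, ← add_smul]
        simp
      rw [e] at h1
      have h2 := hM ((n:ℝ) + 1)
      simp only [smul_eq_mul] at h1
      have h3 : φ (z + w) ≤ (1 - 1 / ((n:ℝ) + 1)) * φ z + 1 / ((n:ℝ) + 1) * M := by
        refine h1.trans ?_
        gcongr
      have h4 : ((n:ℝ) + 1) * φ (z + w) ≤ ((n:ℝ) + 1) * ((1 - 1 / ((n:ℝ) + 1)) * φ z + 1 / ((n:ℝ) + 1) * M) :=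
        mul_le_mul_of_nonneg_left h3 hpos.le
      have h5 : ((n:ℝ) + 1) * ((1 - 1 / ((n:ℝ) + 1)) * φ z + 1 / ((n:ℝ) + 1) * M) = n * φ z + M := by
        field_simp
        ring
      rw [h5] at h4
      linarith
    have hd : 0 < φ (z + w) - φ z := by linarith
    obtain ⟨n, hn'⟩ := exists_nat_gt ((M - φ z) / (φ (z + w) - φ z))
    rw [div_lt_iff₀ hd] at hn'
    have := hn n
    nlinarith
  apply le_antisymm
  · exact key x y (hb x)
  · have := key (x + y) (-y) (by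
      obtain ⟨M, hM⟩ := hb (x + y)
      refine ⟨M, fun s => ?_⟩
      have := hM (-s)
      rwa [neg_smul, ← smul_neg] at this)
    simpa using this

end Pool.Agent.Lib.MP_eebf92_an
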