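import Mathlib
open scoped ENNReal
set_option autoImplicit false

namespace Pool.Agent.Lib.MP_eebf92_an

abbrev Idx : Type := ℕ × ℕ
abbrev E4 : Type := lp (fun _ : Idx => ℝ) 4
abbrev E2 : Type := lp (fun _ : Idx => ℝ) 2

instance fact4 : Fact ((1 : ℝ≥0∞) ≤ 4) := ⟨by norm_num⟩

lemma four_toReal : (4 : ℝ≥0∞).toReal = 4 := by norm_num

lemma summable_four (u : E4) : Summable (fun p => (u p) ^ 4) := by
  have h := (lp.memℓp u).summable (by norm_num : 0 < (4:ℝ≥0∞).toReal)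
  refine h.congr fun p => ?_
  rw [four_toReal]
  rw [Real.norm_eq_abs, show (4:ℝ) = ((4:ℕ):ℝ) by norm_num, Real.rpow_natCast, Even.pow_abs (by decide)]

lemma norm_four (u : E4) : ‖u‖ ^ 4 = ∑' p, (u p) ^ 4 := by
  have h := lp.norm_rpow_eq_tsum (by norm_num : 0 < (4:ℝ≥0∞).toReal) u
  rw [four_toReal] at h
  rw [show (4:ℝ) = ((4:ℕ):ℝ) by norm_num, Real.rpow_natCast] at h
  rw [h]
  refine tsum_congr fun p => ?_
  rw [Real.norm_eq_abs, Real.rpow_natCast, Even.pow_abs (by decide)]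

lemma summable_two (u : E2) : Summable (fun p => (u p) ^ 2) := by
  have h := (lp.memℓp u).summable (by norm_num : 0 < (2:ℝ≥0∞).toReal)
  refine h.congr fun p => ?_
  simp

lemma norm_two (u : E2) : ‖u‖ ^ 2 = ∑' p, (u p) ^ 2 := by
  have h := lp.norm_rpow_eq_tsum (by norm_num : 0 < (2:ℝ≥0∞).toReal) u
  simpa using h

lemma mul_mem (u w : E4) : Memℓp (fun p => u p * w p) (2 : ℝ≥0∞) := by
  refine memℓp_gen ?_
  have hs : Summable (fun p => ((u p) ^ 4 + (w p) ^ 4)) := (summable_four u).add (summable_four w)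
  refine Summable.of_nonneg_of_le (fun p => by positivity) (fun p => ?_) hs
  have : ‖u p * w p‖ ^ (2:ℝ≥0∞).toReal = (u p) ^ 2 * (w p) ^ 2 := by
    simp [mul_pow]
  rw [this]
  nlinarith [sq_nonneg ((u p)^2 - (w p)^2), sq_nonneg ((u p)^2), sq_nonneg ((w p)^2)]

/-- coordinatewise product `ℓ⁴ × ℓ⁴ → ℓ²` -/
noncomputable def mulE (u w : E4) : E2 := ⟨fun p => u p * w p, mul_mem u w⟩

@[simp] lemma mulE_apply (u w : E4) (p : Idx) : mulE u w p = u p * w p := rfl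

lemma norm_mulE_self (u : E4) : ‖mulE u u‖ = ‖u‖ ^ 2 := by
  have h : ‖mulE u u‖ ^ 2 = (‖u‖ ^ 2) ^ 2 := by
    rw [norm_two, ← pow_mul, norm_four]
    refine tsum_congr fun p => ?_
    simp; ring
  exact (pow_left_inj₀ (norm_nonneg _) (by positivity) (by norm_num)).1 h

lemma norm_mulE_le (u w : E4) : ‖mulE u w‖ ≤ ‖u‖ * ‖w‖ := by
  have h : ‖mulE u w‖ ^ 2 ≤ (‖u‖ * ‖w‖) ^ 2 := by
    have h1 : ‖mulE u w‖ ^ 2 = inner ℝ (mulE u u) (mulE w w) := by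
      rw [norm_two, lp.inner_eq_tsum]
      refine tsum_congr fun p => ?_
      simp; ring
    rw [h1, mul_pow, ← norm_mulE_self, ← norm_mulE_self]
    exact real_inner_le_norm _ _
  exact le_of_sq_le_sq h (by positivity)

noncomputable def mulL : E4 →L[ℝ] E4 →L[ℝ] E2 :=
  LinearMap.mkContinuous₂
    (LinearMap.mk₂ ℝ mulE
      (fun a b c => by ext p; simp [add_mul])
      (fun c a b => by ext p; simp [mul_assoc])
      (fun a b c => by ext p; simp [mul_add])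
      (fun c a b => by ext p; simp; ring)) 1
    (fun u w => by simpa using norm_mulE_le u w)

lemma mulL_apply (u w : E4) : mulL u w = mulE u w := rfl

abbrev X : Type := E4 × E2

noncomputable def N (x : X) : ℝ := ‖(WithLp.toLp 4 x : WithLp 4 (E4 × E2))‖

lemma N_eq (x : X) : N x = (‖x.1‖ ^ 4 + ‖x.2‖ ^ 4) ^ ((1:ℝ)/4) := by
  have := WithLp.prod_norm_eq_of_nat (p := 4) 4 (by norm_num) (WithLp.toLp 4 x : WithLp 4 (E4 × E2))
  simpa [N] using this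

lemma N_add (x y : X) : N (x + y) ≤ N x + N y := by
  unfold N
  rw [WithLp.toLp_add]
  exact norm_add_le _ _

lemma N_smul (c : ℝ) (x : X) : N (c • x) = |c| * N x := by
  unfold N
  rw [WithLp.toLp_smul, norm_smul, Real.norm_eq_abs]

lemma N_bounds (x : X) : 1 * ‖x‖ ≤ N x ∧ N x ≤ 2 * ‖x‖ := by
  rw [N_eq]
  have h4 : ∀ a : ℝ, 0 ≤ a → (a ^ 4) ^ ((1:ℝ)/4) = a := fun a ha => by
    rw [show a ^ 4 = a ^ (4:ℝ) by norm_cast, ← Real.rpow_mul ha]; norm_num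
  constructor
  · rw [one_mul]
    have : ‖x‖ ^ 4 ≤ ‖x.1‖ ^ 4 + ‖x.2‖ ^ 4 := by
      rw [Prod.norm_def]
      rcases max_cases ‖x.1‖ ‖x.2‖ with h | h <;> rw [h.1] <;> nlinarith [pow_nonneg (norm_nonneg x.1) 4, pow_nonneg (norm_nonneg x.2) 4]
    calc ‖x‖ = (‖x‖ ^ 4) ^ ((1:ℝ)/4) := (h4 _ (norm_nonneg _)).symm
      _ ≤ _ := Real.rpow_le_rpow (by positivity) this (by norm_num)
  · have h1 : ‖x.1‖ ≤ ‖x‖ := norm_fst_le x
    have h2 : ‖x.2‖ ≤ ‖x‖ := norm_snd_le x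
    have : ‖x.1‖ ^ 4 + ‖x.2‖ ^ 4 ≤ (2 * ‖x‖) ^ 4 := by
      have e1 := pow_le_pow_left₀ (norm_nonneg _) h1 4
      have e2 := pow_le_pow_left₀ (norm_nonneg _) h2 4
      have e3 : 0 ≤ ‖x‖ ^ 4 := by positivity
      rw [mul_pow]; nlinarith
    calc _ ≤ ((2 * ‖x‖) ^ 4) ^ ((1:ℝ)/4) := Real.rpow_le_rpow (by positivity) this (by norm_num)
      _ = _ := h4 _ (by positivity)

lemma N_contDiffOn (k : WithTop ℕ∞) : ContDiffOn ℝ k N ({0}ᶜ : Set X) := by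
  have h1 : ContDiff ℝ k (fun x : X => ‖x.1‖ ^ 4 + ‖x.2‖ ^ 4) := by
    have e : (fun x : X => ‖x.1‖ ^ 4 + ‖x.2‖ ^ 4) = fun x : X => ‖mulL x.1 x.1‖ ^ 2 + (‖x.2‖ ^ 2) ^ 2 := by
      funext x
      rw [mulL_apply, norm_mulE_self]; ring
    rw [e]
    have c1 : ContDiff ℝ k (fun x : X => mulL x.1 x.1) :=
      mulL.isBoundedBilinearMap.contDiff.comp (contDiff_fst.prodMk contDiff_fst)
    exact (c1.norm_sq ℝ).add ((contDiff_snd.norm_sq ℝ).pow 2)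
  have e2 : N = fun x : X => (‖x.1‖ ^ 4 + ‖x.2‖ ^ 4) ^ ((1:ℝ)/4) := funext N_eq
  rw [e2]
  refine (h1.contDiffOn).rpow_const_of_ne ?_
  intro x hx hzero
  apply hx
  have a1 : 0 ≤ ‖x.1‖ ^ 4 := by positivity
  have a2 : 0 ≤ ‖x.2‖ ^ 4 := by positivity
  have b1 : ‖x.1‖ ^ 4 = 0 := by linarith
  have b2 : ‖x.2‖ ^ 4 = 0 := by linarith
  have c1 : x.1 = 0 := by simpa using b1
  have c2 : x.2 = 0 := by simpa using b2
  exact Prod.ext c1 c2

end Pool.Agent.Lib.MP_eebf92_an
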