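import Mathlib
import Pool.Agent.Lib.MP_eebf92_an.Space
open scoped ENNReal Topology
set_option autoImplicit false

namespace Pool.Agent.Lib.MP_eebf92_an

/-- unit vectors -/
noncomputable def e4 (p : Idx) : E4 := lp.single 4 p 1
noncomputable def e2 (p : Idx) : E2 := lp.single 2 p 1

lemma single_eq (p : Idx) (c : ℝ) : (lp.single 4 p c : E4) = c • e4 p := by
  unfold e4
  rw [← lp.single_smul]
  simp

lemma exists_signs (T : E4 →L[ℝ] E4 →L[ℝ] ℝ) (F : Finset Idx) :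
    ∃ σ : Idx → ℝ, (∀ i, |σ i| = 1) ∧
      ∑ i ∈ F, T (e4 i) (e4 i) ≤
        T (∑ i ∈ F, lp.single 4 i (σ i)) (∑ i ∈ F, lp.single 4 i (σ i)) := by
  classical
  induction F using Finset.induction_on with
  | empty => exact ⟨fun _ => 1, by simp, by simp⟩
  | insert a F ha ih =>
    obtain ⟨σ, hσ, hle⟩ := ih
    set s : E4 := ∑ i ∈ F, lp.single 4 i (σ i) with hs
    -- choose the sign
    obtain ⟨τ, hτ, hτ2⟩ : ∃ τ : ℝ, |τ| = 1 ∧ 0 ≤ τ * (T s (e4 a) + T (e4 a) s) := by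
      rcases le_total 0 (T s (e4 a) + T (e4 a) s) with h | h
      · exact ⟨1, by simp, by simpa using h⟩
      · exact ⟨-1, by simp, by linarith⟩
    refine ⟨Function.update σ a τ, ?_, ?_⟩
    · intro i
      by_cases h : i = a
      · subst h; simpa using hτ
      · simpa [Function.update_of_ne h] using hσ i
    · have hF : ∑ i ∈ F, (lp.single 4 i (Function.update σ a τ i) : E4) = s := by
        rw [hs]
        refine Finset.sum_congr rfl fun i hi => ?_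
        have : i ≠ a := fun h => ha (h ▸ hi)
        rw [Function.update_of_ne this]
      rw [Finset.sum_insert ha, Finset.sum_insert ha, hF, Function.update_self, single_eq]
      have hτsq : τ * τ = 1 := by
        have := congrArg (· ^ 2) hτ
        simp only [sq_abs] at this
        nlinarith
      have e : T (τ • e4 a + s) (τ • e4 a + s) =
          (τ * τ) * T (e4 a) (e4 a) + τ * (T s (e4 a) + T (e4 a) s) + T s s := by
        simp only [map_add, map_smul, add_apply, smul_apply,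
          smul_eq_mul]
        ring
      rw [e, hτsq]
      linarith

lemma exists_small (T : E4 →L[ℝ] E4 →L[ℝ] ℝ) {η : ℝ} (hη : 0 < η) {S : Set Idx} (hS : S.Infinite) :
    ∃ i ∈ S, T (e4 i) (e4 i) < η := by
  by_contra hcon
  push Not at hcon
  obtain ⟨n, hn⟩ := exists_nat_gt ((‖T‖ / η) ^ 2)
  have hn0 : (0:ℝ) < n := lt_of_le_of_lt (by positivity) hn
  obtain ⟨F, hFS, hFn⟩ := hS.exists_subset_card_eq n
  obtain ⟨σ, hσ, hle⟩ := exists_signs T F
  set s : E4 := ∑ i ∈ F, lp.single 4 i (σ i) with hs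
  have hnorm : ‖s‖ ^ 4 = n := by
    have h := lp.norm_sum_single (E := fun _ : Idx => ℝ) (p := 4) (by norm_num) σ F
    rw [four_toReal, show (4:ℝ) = ((4:ℕ):ℝ) by norm_num, Real.rpow_natCast] at h
    rw [hs, h]
    simp [hσ, hFn]
  have h1 : (n:ℝ) * η ≤ ∑ i ∈ F, T (e4 i) (e4 i) := by
    rw [← hFn, ← nsmul_eq_mul]
    exact Finset.card_nsmul_le_sum F _ η (fun i hi => hcon i (hFS hi))
  have h2 : T s s ≤ ‖T‖ * ‖s‖ ^ 2 := by
    calc T s s ≤ ‖T s s‖ := le_abs_self _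
      _ ≤ ‖T s‖ * ‖s‖ := (T s).le_opNorm s
      _ ≤ (‖T‖ * ‖s‖) * ‖s‖ := by gcongr; exact T.le_opNorm s
      _ = _ := by ring
  have h3 : (n:ℝ) * η ≤ ‖T‖ * ‖s‖ ^ 2 := h1.trans (hle.trans h2)
  have h4 : ((n:ℝ) * η) ^ 2 ≤ ‖T‖ ^ 2 * n := by
    calc ((n:ℝ) * η) ^ 2 ≤ (‖T‖ * ‖s‖ ^ 2) ^ 2 := by gcongr
      _ = ‖T‖ ^ 2 * ‖s‖ ^ 4 := by ring
      _ = _ := by rw [hnorm]
  have h5 : (n:ℝ) * η ^ 2 ≤ ‖T‖ ^ 2 := by
    have : (n:ℝ) * ((n:ℝ) * η ^ 2) ≤ n * ‖T‖ ^ 2 := by nlinarith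
    exact le_of_mul_le_mul_left this hn0
  rw [div_pow, div_lt_iff₀ (by positivity)] at hn
  linarith

/-- Brezis and Browder ordering principle, in the form needed. -/
lemma brezis_browder {α : Type} (r : α → α → Prop) (hrefl : ∀ a, r a a)
    (htrans : ∀ a b c, r a b → r b c → r a c) (ψ : α → ℝ) (M : ℝ) (hM : ∀ a, ψ a ≤ M)
    (hmono : ∀ a b, r a b → ψ a ≤ ψ b)
    (hseq : ∀ a : ℕ → α, (∀ n, r (a n) (a (n + 1))) → ∃ b, ∀ n, r (a n) b) (a0 : α) :
    ∃ b, r a0 b ∧ ∀ c, r b c → ψ c ≤ ψ b := by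
  classical
  have hstep : ∀ (a : α) (n : ℕ), ∃ c, r a c ∧ ∀ d, r a d → ψ d ≤ ψ c + 1 / ((n:ℝ) + 1) := by
    intro a n
    set g : ℝ := sSup (ψ '' {c | r a c}) with hg
    have hbdd : BddAbove (ψ '' {c | r a c}) := ⟨M, by rintro _ ⟨c, _, rfl⟩; exact hM c⟩
    have hne : (ψ '' {c | r a c}).Nonempty := ⟨ψ a, a, hrefl a, rfl⟩
    obtain ⟨_, ⟨c, hc, rfl⟩, hc2⟩ := exists_lt_of_lt_csSup hne
      (show g - 1 / ((n:ℝ) + 1) < g by
        have : (0:ℝ) < 1 / ((n:ℝ) + 1) := by positivity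
        linarith)
    refine ⟨c, hc, fun d hd => ?_⟩
    have : ψ d ≤ g := le_csSup hbdd ⟨d, hd, rfl⟩
    linarith
  choose step hstep1 hstep2 using hstep
  let a : ℕ → α := fun n => Nat.rec a0 (fun n x => step x n) n
  have ha : ∀ n, a (n + 1) = step (a n) n := fun n => rfl
  obtain ⟨b, hb⟩ := hseq a (fun n => by rw [ha]; exact hstep1 _ _)
  refine ⟨b, hb 0, fun c hc => ?_⟩
  have h1 : ∀ n : ℕ, ψ c ≤ ψ b + 1 / ((n:ℝ) + 1) := by
    intro n
    have h2 := hstep2 (a n) n c (htrans _ _ _ (hb n) hc)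
    have h3 := hmono _ _ (hb (n + 1))
    rw [ha] at h3
    linarith
  refine le_of_forall_pos_le_add fun ε hε => ?_
  obtain ⟨n, hn⟩ := exists_nat_one_div_lt hε
  exact (h1 n).trans (by linarith)

end Pool.Agent.Lib.MP_eebf92_an
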