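import Mathlib
import Pool.Agent.Lib.MP_eebf92_an.Space
import Pool.Agent.Lib.MP_eebf92_an.Calculus
import Pool.Agent.Lib.MP_eebf92_an.Signs
open scoped ENNReal Topology
open Filter
set_option autoImplicit false

namespace Pool.Agent.Lib.MP_eebf92_an

/-- the closed subspace by which we take the quotient -/
def Y : Submodule ℝ X where
  carrier := {x | ∀ p : Idx, x.1 p + ((p.1 : ℝ) + 1) * x.2 p = 0}
  add_mem' := by
    intro a b ha hb p
    have h1 := ha p
    have h2 := hb p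
    simp only [Prod.fst_add, Prod.snd_add, lp.coeFn_add, Pi.add_apply] at *
    linarith
  zero_mem' := by intro p; simp
  smul_mem' := by
    intro c x hx p
    have h1 := hx p
    simp only [Prod.smul_fst, Prod.smul_snd, lp.coeFn_smul, Pi.smul_apply, smul_eq_mul] at *
    linear_combination c * h1

/-- `w` extends `v` -/
def Ext (v w : E2) : Prop := ∀ p, v p ≠ 0 → w p = v p

def Good (R : ℝ) (v : E2) : Prop := ∀ p : Idx, v p ≠ 0 → R ≤ |v p| * ((p.1 : ℝ) + 1)

lemma Ext.refl (v : E2) : Ext v v := fun _ _ => rfl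

lemma Ext.trans {u v w : E2} (h1 : Ext u v) (h2 : Ext v w) : Ext u w := by
  intro p hp
  have h3 := h1 p hp
  rw [h2 p (by rw [h3]; exact hp), h3]

lemma add_apply2 (v w : E2) (p : Idx) : (v + w) p = v p + w p := rfl
lemma sub_apply2 (v w : E2) (p : Idx) : (v - w) p = v p - w p := rfl
lemma smul_apply2 (c : ℝ) (v : E2) (p : Idx) : (c • v) p = c * v p := rfl
lemma add_apply4 (v w : E4) (p : Idx) : (v + w) p = v p + w p := rfl
lemma sub_apply4 (v w : E4) (p : Idx) : (v - w) p = v p - w p := rfl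
lemma smul_apply4 (c : ℝ) (v : E4) (p : Idx) : (c • v) p = c * v p := rfl

lemma Ext.norm_sub {v w : E2} (h : Ext v w) : ‖w - v‖ ^ 2 = ‖w‖ ^ 2 - ‖v‖ ^ 2 := by
  have h0 : inner ℝ v (w - v) = 0 := by
    rw [lp.inner_eq_tsum]
    have : ∀ p, inner ℝ (v p) ((w - v) p) = (0:ℝ) := by
      intro p
      rw [sub_apply2]
      by_cases hp : v p = 0
      · simp [hp]
      · simp [h p hp]
    rw [tsum_congr this, tsum_zero]
  have h1 : ‖w‖ ^ 2 = ‖v + (w - v)‖ ^ 2 := by rw [add_sub_cancel]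
  have h2 := norm_add_sq_real v (w - v)
  rw [h0] at h2
  rw [h1, h2]
  ring

lemma abs_apply_le (v : E2) (p : Idx) : |v p| ≤ ‖v‖ := lp.norm_apply_le_norm (by norm_num) v p
lemma abs_apply_le4 (v : E4) (p : Idx) : |v p| ≤ ‖v‖ := lp.norm_apply_le_norm (by norm_num) v p

lemma norm_e2 (p : Idx) : ‖e2 p‖ = 1 := by
  unfold e2
  rw [lp.norm_single (by norm_num)]
  simp

lemma e2_apply_self (p : Idx) : e2 p p = 1 := by simp [e2]
lemma e2_apply_ne {p q : Idx} (h : q ≠ p) : e2 p q = 0 := by simp [e2, Pi.single_eq_of_ne h]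
lemma e4_apply_self (p : Idx) : e4 p p = 1 := by simp [e4]
lemma e4_apply_ne {p q : Idx} (h : q ≠ p) : e4 p q = 0 := by simp [e4, Pi.single_eq_of_ne h]

lemma extend {φ : X → ℝ} (hφ : Differentiable ℝ φ) (hφ2 : Differentiable ℝ (fderiv ℝ φ))
    (hinv : ∀ y ∈ Y, ∀ x, φ (x + y) = φ x) {R ε : ℝ} (hR : 0 < R) (hε : 0 < ε)
    {v : E2} (hg : Good R v) (hv : ‖v‖ ^ 2 < R ^ 2) :
    ∃ w : E2, Good R w ∧ ‖w‖ ^ 2 ≤ R ^ 2 ∧ ‖v‖ ^ 2 < ‖w‖ ^ 2 ∧ Ext v w ∧
      φ (0, w) ≤ φ (0, v) + ε * (‖w‖ ^ 2 - ‖v‖ ^ 2) := by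
  set x : X := (0, v) with hx
  set T : X →L[ℝ] X →L[ℝ] ℝ := fderiv ℝ (fderiv ℝ φ) x with hT
  have hTd : HasFDerivAt (fderiv ℝ φ) T x := (hφ2 x).hasFDerivAt
  obtain ⟨δ, hδ, hsd⟩ := second_diff hφ hTd hε
  obtain ⟨t, ht0, htδ, htR⟩ : ∃ t : ℝ, 0 < t ∧ t < δ ∧ t ^ 2 ≤ R ^ 2 - ‖v‖ ^ 2 := by
    refine ⟨min (δ / 2) (Real.sqrt (R ^ 2 - ‖v‖ ^ 2)), ?_, ?_, ?_⟩
    · exact lt_min (half_pos hδ) (Real.sqrt_pos.2 (by linarith))
    · exact lt_of_le_of_lt (min_le_left _ _) (half_lt_self hδ)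
    · calc _ ≤ (Real.sqrt (R ^ 2 - ‖v‖ ^ 2)) ^ 2 := by
            apply pow_le_pow_left₀
            · exact le_min (half_pos hδ).le (Real.sqrt_nonneg _)
            · exact min_le_right _ _
        _ = _ := Real.sq_sqrt (by linarith)
  obtain ⟨n, hn⟩ : ∃ n : ℕ, R ≤ t * ((n:ℝ) + 1) := by
    obtain ⟨n, hn⟩ := exists_nat_gt (R / t)
    refine ⟨n, ?_⟩
    rw [div_lt_iff₀ ht0] at hn
    nlinarith
  set S : Set Idx := {p | p.1 = n ∧ v p = 0} with hS
  have hSinf : S.Infinite := by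
    have h1 : ({p : Idx | p.1 = n}).Infinite := by
      have : Function.Injective (fun m : ℕ => ((n, m) : Idx)) := fun a b h => by simpa using h
      refine (Set.infinite_range_of_injective this).mono ?_
      rintro _ ⟨m, rfl⟩; rfl
    have h2 : ({p : Idx | p.1 = n ∧ v p ≠ 0}).Finite := by
      have hs := (summable_two v).tendsto_cofinite_zero
      have hc : (0:ℝ) < (R / ((n:ℝ) + 1)) ^ 2 := by positivity
      have h3 := hs.eventually (gt_mem_nhds hc)
      rw [Filter.eventually_cofinite] at h3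
      refine h3.subset ?_
      rintro p ⟨hp1, hp2⟩
      have h4 := hg p hp2
      rw [hp1] at h4
      have h5 : R / ((n:ℝ) + 1) ≤ |v p| := by
        rw [div_le_iff₀ (by positivity)]; exact h4
      simp only [Set.mem_ofPred_eq, not_lt]
      rw [← sq_abs (v p)]
      exact pow_le_pow_left₀ (by positivity) h5 2
    have h3 : S = {p : Idx | p.1 = n} \ {p : Idx | p.1 = n ∧ v p ≠ 0} := by
      ext p
      simp only [hS, Set.mem_ofPred_eq, Set.mem_sdiff, not_and, not_not]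
      constructor
      · rintro ⟨a, b⟩; exact ⟨a, fun _ => b⟩
      · rintro ⟨a, b⟩; exact ⟨a, b a⟩
    rw [h3]
    exact h1.sdiff h2
  set T4 : E4 →L[ℝ] E4 →L[ℝ] ℝ :=
    T.bilinearComp (ContinuousLinearMap.inl ℝ E4 E2) (ContinuousLinearMap.inl ℝ E4 E2) with hT4
  obtain ⟨p, hpS, hp⟩ := exists_small T4 (η := ε / ((n:ℝ) + 1) ^ 2) (by positivity) hSinf
  have hpn : p.1 = n := hpS.1
  have hvp : v p = 0 := hpS.2
  set b : X := (0, e2 p) with hb
  set c : X := (((n:ℝ) + 1) • e4 p, 0) with hc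
  have hbc : ∀ s : ℝ, s • (b - c) ∈ Y := by
    intro s
    apply Y.smul_mem
    intro q
    have q1 : (b - c).1 q = - (((n:ℝ) + 1) * e4 p q) := by
      rw [hb, hc]
      show ((0 : E4) - ((n:ℝ) + 1) • e4 p) q = _
      rw [zero_sub]; rfl
    have q2 : (b - c).2 q = e2 p q := by
      rw [hb, hc]
      show (e2 p - (0 : E2)) q = _
      rw [sub_zero]
    rw [q1, q2]
    by_cases hq : q = p
    · subst hq
      rw [e2_apply_self, e4_apply_self, hpn]; ring
    · rw [e2_apply_ne hq, e4_apply_ne hq]; ring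
  have hTbc : T b b = T c c := second_deriv_eq hφ hTd (fun s z => hinv _ (hbc s) z)
  have hTc : T c c = ((n:ℝ) + 1) ^ 2 * T4 (e4 p) (e4 p) := by
    have : c = ((n:ℝ) + 1) • ((e4 p, 0) : X) := by simp [hc]
    rw [this, hT4]
    simp only [map_smul, smul_apply, smul_eq_mul,
      ContinuousLinearMap.bilinearComp_apply, ContinuousLinearMap.inl_apply]
    ring
  have hTb : T b b < ε := by
    rw [hTbc, hTc]
    have := mul_lt_mul_of_pos_left hp (show (0:ℝ) < ((n:ℝ) + 1) ^ 2 by positivity)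
    rwa [mul_div_cancel₀ _ (by positivity)] at this
  have hnb : ‖b‖ = 1 := by simp [hb, Prod.norm_def, norm_e2]
  have hnh : ‖t • b‖ = t := by rw [norm_smul, hnb, Real.norm_eq_abs, abs_of_pos ht0, mul_one]
  have h1 := hsd (t • b) (by rw [hnh]; exact htδ)
  rw [hnh] at h1
  have h2 : T (t • b) (t • b) = t ^ 2 * T b b := by simp; ring
  rw [h2] at h1
  have h3 : φ (x + t • b) + φ (x - t • b) ≤ 2 * φ x + 2 * (ε * t ^ 2) := by
    have := (abs_le.1 h1).2
    have : t ^ 2 * T b b ≤ ε * t ^ 2 := by nlinarith [sq_nonneg t]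
    linarith
  obtain ⟨τ, hτ, h4⟩ : ∃ τ : ℝ, |τ| = t ∧ φ (0, v + τ • e2 p) ≤ φ x + ε * t ^ 2 := by
    rcases le_or_gt (φ (x + t • b)) (φ x + ε * t ^ 2) with h | h
    · refine ⟨t, abs_of_pos ht0, ?_⟩
      have : x + t • b = (0, v + t • e2 p) := by simp [hx, hb]
      rwa [this] at h
    · refine ⟨-t, by rw [abs_neg, abs_of_pos ht0], ?_⟩
      have h5 : φ (x - t • b) ≤ φ x + ε * t ^ 2 := by linarith
      have : x - t • b = (0, v + (-t) • e2 p) := by
        simp [hx, hb, sub_eq_add_neg]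
      rwa [this] at h5
  set w : E2 := v + τ • e2 p with hw
  have hwp : w p = τ := by
    rw [hw, add_apply2, smul_apply2, hvp, e2_apply_self]; ring
  have hwq : ∀ q, q ≠ p → w q = v q := fun q hq => by
    rw [hw, add_apply2, smul_apply2, e2_apply_ne hq]; ring
  have hext : Ext v w := by
    intro q hq
    exact hwq q (fun h => hq (by rw [h]; exact hvp))
  have hwv : ‖w - v‖ = t := by
    rw [hw, add_sub_cancel_left, norm_smul, norm_e2, mul_one, Real.norm_eq_abs, hτ]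
  have hnw := hext.norm_sub
  rw [hwv] at hnw
  have htsq : 0 < t ^ 2 := by positivity
  refine ⟨w, ?_, by linarith, by linarith, hext, ?_⟩
  · intro q hq
    by_cases hqp : q = p
    · subst hqp
      rw [hwp, hτ, hpn]; exact hn
    · rw [hwq q hqp] at hq ⊢
      exact hg q hq
  · rw [← hnw]; exact h4

end Pool.Agent.Lib.MP_eebf92_an
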