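import Mathlib
import Pool.Agent.Lib.MP_eebf92_an.Extend
open scoped ENNReal Topology
open Filter
set_option autoImplicit false

namespace Pool.Agent.Lib.MP_eebf92_an

/-- existence of a far away point at which `φ` is small -/
lemma exists_far {φ : X → ℝ} (hφ : Differentiable ℝ φ) (hφ2 : Differentiable ℝ (fderiv ℝ φ))
    (hinv : ∀ y ∈ Y, ∀ x, φ (x + y) = φ x) {R ε : ℝ} (hR : 0 < R) (hε : 0 < ε) :
    ∃ v : E2, Good R v ∧ ‖v‖ ^ 2 = R ^ 2 ∧ φ (0, v) ≤ φ 0 + ε * R ^ 2 := by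
  let α : Type := {v : E2 // Good R v ∧ ‖v‖ ^ 2 ≤ R ^ 2}
  let F : E2 → ℝ := fun v => φ (0, v)
  have hFc : Continuous F := hφ.continuous.comp (by fun_prop)
  let r : α → α → Prop := fun a b => Ext a.1 b.1 ∧ F b.1 ≤ F a.1 + ε * (‖b.1‖ ^ 2 - ‖a.1‖ ^ 2)
  have hrefl : ∀ a, r a a := fun a => ⟨Ext.refl _, by simp⟩
  have htrans : ∀ a b c, r a b → r b c → r a c := by
    rintro a b c ⟨h1, h2⟩ ⟨h3, h4⟩
    exact ⟨h1.trans h3, by linarith⟩
  have hmono : ∀ a b, r a b → ‖a.1‖ ^ 2 ≤ ‖b.1‖ ^ 2 := by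
    rintro a b ⟨h1, _⟩
    have := h1.norm_sub
    nlinarith [sq_nonneg ‖b.1 - a.1‖]
  have hseq : ∀ a : ℕ → α, (∀ n, r (a n) (a (n + 1))) → ∃ b, ∀ n, r (a n) b := by
    intro a ha
    have hle : ∀ m n, m ≤ n → r (a m) (a n) := by
      intro m n hmn
      induction n, hmn using Nat.le_induction with
      | base => exact hrefl _
      | succ n _ ih => exact htrans _ _ _ ih (ha n)
    set s : ℕ → ℝ := fun n => ‖(a n).1‖ ^ 2 with hs
    have hsm : Monotone s := fun m n hmn => hmono _ _ (hle m n hmn)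
    have hsb : BddAbove (Set.range s) := ⟨R ^ 2, by rintro _ ⟨n, rfl⟩; exact (a n).2.2⟩
    have hsc : CauchySeq s := (tendsto_atTop_ciSup hsm hsb).cauchySeq
    have hdist : ∀ m n, m ≤ n → ‖(a n).1 - (a m).1‖ ^ 2 = s n - s m :=
      fun m n hmn => (hle m n hmn).1.norm_sub
    have hac : CauchySeq (fun n => (a n).1) := by
      rw [Metric.cauchySeq_iff'] at hsc ⊢
      intro δ hδ
      obtain ⟨M, hM⟩ := hsc (δ ^ 2) (by positivity)
      refine ⟨M, fun n hn => ?_⟩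
      have h1 := hM n hn
      rw [Real.dist_eq, abs_of_nonneg (by linarith [hsm hn])] at h1
      rw [dist_eq_norm]
      have h2 := hdist M n hn
      exact lt_of_pow_lt_pow_left₀ 2 hδ.le (by rw [h2]; exact h1)
    obtain ⟨b, hb⟩ := cauchySeq_tendsto_of_complete hac
    have hbp : ∀ p, Tendsto (fun n => (a n).1 p) atTop (𝓝 (b p)) := by
      intro p
      rw [tendsto_iff_norm_sub_tendsto_zero] at hb ⊢
      refine squeeze_zero (fun n => norm_nonneg _) (fun n => ?_) hb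
      exact abs_apply_le ((a n).1 - b) p
    have hbF : Tendsto (fun n => F (a n).1) atTop (𝓝 (F b)) := (hFc.tendsto b).comp hb
    have hbn : Tendsto s atTop (𝓝 (‖b‖ ^ 2)) := (hb.norm).pow 2
    have hExt : ∀ m, Ext (a m).1 b := by
      intro m p hp
      have h1 : ∀ᶠ n in atTop, (a n).1 p = (a m).1 p := by
        filter_upwards [eventually_ge_atTop m] with n hn
        exact (hle m n hn).1 p hp
      exact tendsto_nhds_unique (hbp p) (tendsto_const_nhds.congr' (h1.mono fun n h => h.symm))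
    have hgood : Good R b := by
      intro p hp
      have h1 : ∀ᶠ n in atTop, (a n).1 p ≠ 0 := (hbp p).eventually_ne hp
      obtain ⟨n, hn⟩ := h1.exists
      have h2 := hExt n p hn
      rw [h2]
      exact (a n).2.1 p hn
    refine ⟨⟨b, hgood, le_of_tendsto' hbn (fun n => (a n).2.2)⟩, fun m => ⟨hExt m, ?_⟩⟩
    have h3 : Tendsto (fun n => F (a m).1 + ε * (s n - s m)) atTop
        (𝓝 (F (a m).1 + ε * (‖b‖ ^ 2 - s m))) :=
      ((hbn.sub_const _).const_mul ε).const_add _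
    refine le_of_tendsto_of_tendsto hbF h3 ?_
    filter_upwards [eventually_ge_atTop m] with n hn
    exact (hle m n hn).2
  let a0 : α := ⟨0, fun p hp => absurd rfl hp, by simp; positivity⟩
  obtain ⟨b, hb0, hbmax⟩ := brezis_browder r hrefl htrans (fun a => ‖a.1‖ ^ 2) (R ^ 2)
    (fun a => a.2.2) hmono hseq a0
  have hbR : ‖b.1‖ ^ 2 = R ^ 2 := by
    refine le_antisymm b.2.2 ?_
    by_contra hlt
    push Not at hlt
    obtain ⟨w, hw1, hw2, hw3, hw4, hw5⟩ := extend hφ hφ2 hinv hR hε b.2.1 hlt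
    have := hbmax ⟨w, hw1, hw2⟩ ⟨hw4, hw5⟩
    exact absurd hw3 (not_lt.2 this)
  refine ⟨b.1, b.2.1, hbR, ?_⟩
  have h := hb0.2
  have e0 : F a0.1 = φ 0 := rfl
  have e1 : ‖a0.1‖ ^ 2 = 0 := by show ‖(0:E2)‖ ^ 2 = 0; simp
  rw [e0, e1, hbR, sub_zero] at h
  exact h

/-- the distance function to `Y` -/
noncomputable def f (x : X) : ℝ := ‖(Submodule.Quotient.mk x : X ⧸ Y)‖

lemma f_convex : ConvexOn ℝ Set.univ f := by
  refine ⟨convex_univ, fun x _ y _ a b ha hb _ => ?_⟩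
  unfold f
  rw [Submodule.Quotient.mk_add, Submodule.Quotient.mk_smul, Submodule.Quotient.mk_smul]
  calc _ ≤ ‖a • (Submodule.Quotient.mk x : X ⧸ Y)‖ + ‖b • (Submodule.Quotient.mk y : X ⧸ Y)‖ :=
        norm_add_le _ _
    _ = _ := by
        rw [norm_smul, norm_smul, Real.norm_eq_abs, Real.norm_eq_abs, abs_of_nonneg ha,
          abs_of_nonneg hb]
        rfl

lemma f_lip : LipschitzWith 1 f := by
  refine LipschitzWith.of_dist_le_mul fun x y => ?_
  rw [Real.dist_eq, dist_eq_norm]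
  unfold f
  calc |‖(Submodule.Quotient.mk x : X ⧸ Y)‖ - ‖(Submodule.Quotient.mk y : X ⧸ Y)‖|
      ≤ ‖(Submodule.Quotient.mk x : X ⧸ Y) - Submodule.Quotient.mk y‖ := abs_norm_sub_norm_le _ _
    _ = ‖(Submodule.Quotient.mk (x - y) : X ⧸ Y)‖ := by rw [Submodule.Quotient.mk_sub]
    _ ≤ ‖x - y‖ := Submodule.Quotient.norm_mk_le Y _
    _ = _ := by simp

lemma f_inv (x y : X) (hy : y ∈ Y) : f (x + y) = f x := by
  unfold f
  congr 1
  rw [Submodule.Quotient.eq]
  simpa using hy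

lemma f_zero : f 0 = 0 := by unfold f; simp

lemma f_lower {R : ℝ} {v : E2} (hg : Good R v) (hv : ‖v‖ ^ 2 = R ^ 2) :
    R / 2 ≤ f (0, v) := by
  by_contra hlt
  push Not at hlt
  obtain ⟨m, hm, hmn⟩ := Submodule.Quotient.norm_mk_lt (Submodule.Quotient.mk (0, v) : X ⧸ Y)
    (ε := R / 2 - f (0, v)) (by linarith)
  have hm1 : ‖m‖ < R / 2 := by unfold f at hmn; linarith
  rw [Submodule.Quotient.eq] at hm
  have hmem : ∀ p : Idx, m.1 p + ((p.1:ℝ) + 1) * (m.2 p - v p) = 0 := by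
    intro p
    have h := hm p
    have e1 : (m - (0, v)).1 p = m.1 p := by
      show (m.1 - (0:E4)) p = m.1 p
      rw [sub_zero]
    have e2 : (m - (0, v)).2 p = m.2 p - v p := rfl
    rw [e1, e2] at h
    exact h
  have h1 : ∀ p, |v p| / 2 ≤ |m.2 p| := by
    intro p
    by_cases hp : v p = 0
    · rw [hp]; simp
    · have h2 := hg p hp
      have h3 : |m.1 p| < R / 2 := lt_of_le_of_lt ((abs_apply_le4 _ _).trans (norm_fst_le m)) hm1
      have h4 : |m.1 p| = ((p.1:ℝ) + 1) * |m.2 p - v p| := by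
        have : m.1 p = -(((p.1:ℝ) + 1) * (m.2 p - v p)) := by linarith [hmem p]
        rw [this, abs_neg, abs_mul, abs_of_pos (by positivity : (0:ℝ) < (p.1:ℝ) + 1)]
      have hpos : (0:ℝ) < (p.1:ℝ) + 1 := by positivity
      have h5 : ((p.1:ℝ) + 1) * |m.2 p - v p| < ((p.1:ℝ) + 1) * (|v p| / 2) := by
        rw [← h4]; nlinarith
      have h6 : |m.2 p - v p| < |v p| / 2 := lt_of_mul_lt_mul_left h5 hpos.le
      have h7 : |v p| ≤ |m.2 p| + |m.2 p - v p| := by
        have := abs_sub_abs_le_abs_sub (v p) (m.2 p)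
        rw [abs_sub_comm] at this
        linarith
      linarith
  have h2 : ‖v‖ ^ 2 / 4 ≤ ‖m.2‖ ^ 2 := by
    rw [norm_two, norm_two, ← tsum_div_const]
    refine Summable.tsum_le_tsum (fun p => ?_) ((summable_two v).div_const 4) (summable_two m.2)
    have := h1 p
    have h0 : 0 ≤ |v p| / 2 := by positivity
    have h8 := pow_le_pow_left₀ h0 this 2
    rw [sq_abs, div_pow, sq_abs] at h8
    linarith
  have h3 : ‖m.2‖ < R / 2 := lt_of_le_of_lt (norm_snd_le m) hm1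
  have h4 : ‖m.2‖ ^ 2 < (R / 2) ^ 2 := pow_lt_pow_left₀ h3 (norm_nonneg _) (by norm_num)
  rw [hv] at h2
  nlinarith

theorem main : ¬ (∃ φ : X → ℝ, ConvexOn ℝ Set.univ φ ∧ ContDiff ℝ 2 φ ∧ ∀ x : X, |f x - φ x| ≤ 1) := by
  rintro ⟨φ, hconv, hC, happ⟩
  have hd : Differentiable ℝ φ := hC.differentiable (by norm_num)
  have hd2 : Differentiable ℝ (fderiv ℝ φ) :=
    (hC.fderiv_right (m := 1) (by norm_num)).differentiable (by norm_num)
  have hinv : ∀ y ∈ Y, ∀ x, φ (x + y) = φ x := by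
    intro y hy x
    refine convex_const hconv (fun z => ⟨f z + 1, fun s => ?_⟩) x
    have h1 := (abs_le.1 (happ (z + s • y))).1
    rw [f_inv z (s • y) (Y.smul_mem s hy)] at h1
    linarith
  obtain ⟨v, hg, hv, hle⟩ := exists_far hd hd2 hinv (R := 8) (ε := 1 / 128) (by norm_num) (by norm_num)
  have h1 := f_lower hg hv
  have h2 := (abs_le.1 (happ (0, v))).2
  have h3 := (abs_le.1 (happ 0)).1
  rw [f_zero] at h3
  norm_num at h1 hle
  linarith

end Pool.Agent.Lib.MP_eebf92_an
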